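import Mathlib
import Pool.Agent.Helper894.Five.Final

set_option autoImplicit false

namespace Pool.Agent.Results.MP_d7ac36_nt.LowerExponent

open Pool.Agent.Helper894.Five in
/-- `log Q_5(x) / log x ≥ 0.448` for all sufficiently large `x`, where `Q_5(x)` is the number of
integers `1 ≤ n ≤ x` whose orbit under the 5x+1 map takes only finitely many values. -/
theorem result :
    ∀ᶠ x : ℝ in Filter.atTop,
      0.448 ≤ Real.log ((Set.ncard {n : ℤ | 1 ≤ n ∧ (n : ℝ) ≤ x ∧
            (Set.range fun k : ℕ =>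
              (fun m : ℤ => if m % 2 = 0 then m / 2 else (5 * m + 1) / 2)^[k] n).Finite} : ℕ) : ℝ)
          / Real.log x := by
  apply log_form (c := fun x => Set.ncard {n : ℤ | 1 ≤ n ∧ (n : ℝ) ≤ x ∧
            (Set.range fun k : ℕ =>
              (fun m : ℤ => if m % 2 = 0 then m / 2 else (5 * m + 1) / 2)^[k] n).Finite})
  filter_upwards [main_all (a := 1) (by norm_num)] with x hx
  refine hx.trans ?_
  rw [DX_one]
  have hfin : {n : ℤ | 1 ≤ n ∧ (n : ℝ) ≤ x ∧
            (Set.range fun k : ℕ =>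
              (fun m : ℤ => if m % 2 = 0 then m / 2 else (5 * m + 1) / 2)^[k] n).Finite}.Finite := by
    apply (Set.finite_Icc (1 : ℤ) ⌈x⌉).subset
    rintro n ⟨h1, h2, -⟩
    refine ⟨h1, ?_⟩
    exact_mod_cast h2.trans (Int.le_ceil x)
  have hsub : {n : ℤ | 1 ≤ n ∧ (n : ℝ) ≤ x ∧ ∃ k : ℕ, T^[k] n = 1} ⊆
      {n : ℤ | 1 ≤ n ∧ (n : ℝ) ≤ x ∧
            (Set.range fun k : ℕ =>
              (fun m : ℤ => if m % 2 = 0 then m / 2 else (5 * m + 1) / 2)^[k] n).Finite} := by
    rintro n ⟨h1, h2, h3⟩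
    exact ⟨h1, h2, finite_orbit_of_hits h3⟩
  exact_mod_cast Set.ncard_le_ncard hsub hfin

end Pool.Agent.Results.MP_d7ac36_nt.LowerExponent
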